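import Mathlib

namespace Pool.Agent.Results.MP_c86b5e_nt.SmallPrimes

/-- Triples over the field with `p` elements. -/
abbrev T (p : ℕ) := ZMod p × ZMod p × ZMod p

/-- The set `M_k(F_p)` of triples at level `k`. -/
def M (p : ℕ) (k : ZMod p) : Set (T p) :=
  {v | v.1 ^ 2 + v.2.1 ^ 2 + v.2.2 ^ 2 - v.1 * v.2.1 * v.2.2 - 2 = k}

/-- Exchange the first two coordinates. -/
def swap12 (p : ℕ) : Equiv.Perm (T p) where
  toFun v := (v.2.1, v.1, v.2.2)
  invFun v := (v.2.1, v.1, v.2.2)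
  left_inv _ := rfl
  right_inv _ := rfl

/-- Exchange the last two coordinates. -/
def swap23 (p : ℕ) : Equiv.Perm (T p) where
  toFun v := (v.1, v.2.2, v.2.1)
  invFun v := (v.1, v.2.2, v.2.1)
  left_inv _ := rfl
  right_inv _ := rfl

/-- The Vieta involution `(x, y, z) ↦ (x, y, x y - z)`. -/
def vieta (p : ℕ) : Equiv.Perm (T p) where
  toFun v := (v.1, v.2.1, v.1 * v.2.1 - v.2.2)
  invFun v := (v.1, v.2.1, v.1 * v.2.1 - v.2.2)
  left_inv v := by ext <;> simp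
  right_inv v := by ext <;> simp

/-- The group `Γ` generated by the coordinate permutations (which are generated by the two
adjacent transpositions) and the Vieta involution. -/
def Gam (p : ℕ) : Subgroup (Equiv.Perm (T p)) :=
  Subgroup.closure {swap12 p, swap23 p, vieta p}

/-- The `Γ`-orbit of a triple. -/
def orb (p : ℕ) (v : T p) : Set (T p) := MulAction.orbit (Gam p) v

/-- The triples whose `Γ`-orbits are the exceptional orbits. -/
inductive Seed (p : ℕ) : T p → Prop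
  | axis (t : ZMod p) : Seed p (t, 0, 0)
  | one : Seed p (1, 1, 0)
  | sqrt2 (s : ZMod p) : s ^ 2 = 2 → Seed p (s, 1, 0)
  | golden (a b : ZMod p) : a + b = 1 → a * b = -1 → Seed p (a, b, 0)
  | golden1 (a b : ZMod p) : a + b = 1 → a * b = -1 → Seed p (a, 1, 0)

/-- The union `E_k` of the exceptional orbits contained in `M_k(F_p)`. -/
def Exc (p : ℕ) (k : ZMod p) : Set (T p) := {v | v ∈ M p k ∧ ∃ e, Seed p e ∧ v ∈ orb p e}

/-- The assertion of Q1 for a prime `p` and a level `k`: the set `M_k(F_p) \ E_k` is a single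
`Γ`-orbit. -/
def SingleOrbit (p : ℕ) (k : ZMod p) : Prop := ∃ v, M p k \ Exc p k = orb p v

/-- The three moves as a Boolean relation. -/
def adj (p : ℕ) [DecidableEq (ZMod p)] (u v : T p) : Bool :=
  (v == (u.2.1, u.1, u.2.2)) || (v == (u.1, u.2.2, u.2.1)) ||
    (v == (u.1, u.2.1, u.1 * u.2.1 - u.2.2))

/-- A list in which every entry is in the set `s` or is one move away from a later entry. -/
def good (p : ℕ) [DecidableEq (ZMod p)] (s : List (T p)) : List (T p) → Bool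
  | [] => true
  | v :: r => ((s.contains v) || r.any (fun u => adj p u v)) && good p s r

lemma orb_trans {p : ℕ} {e u v : T p} (h : u ∈ orb p e) (g : Equiv.Perm (T p))
    (hg : g ∈ ({swap12 p, swap23 p, vieta p} : Set (Equiv.Perm (T p)))) (hv : v = g u) :
    v ∈ orb p e := by
  obtain ⟨x, hx⟩ := h
  refine ⟨⟨g, Subgroup.subset_closure hg⟩ * x, ?_⟩
  simp only at hx
  rw [hv, ← hx]
  rfl

lemma good_mem {p : ℕ} [DecidableEq (ZMod p)] {s : List (T p)}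
    (hs : ∀ v ∈ s, Seed p v) : ∀ l : List (T p), good p s l = true →
    ∀ v ∈ l, ∃ e, Seed p e ∧ v ∈ orb p e := by
  intro l
  induction l with
  | nil => intro _ v hv; simp at hv
  | cons a r ih =>
    intro h v hv
    rw [good, Bool.and_eq_true, Bool.or_eq_true] at h
    rcases List.mem_cons.mp hv with rfl | hv
    · rcases h.1 with h1 | h1
      · exact ⟨v, hs v (by simpa using h1), MulAction.mem_orbit_self v⟩
      · rw [List.any_eq_true] at h1
        obtain ⟨u, hu, huv⟩ := h1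
        obtain ⟨e, he, hue⟩ := ih h.2 u hu
        refine ⟨e, he, ?_⟩
        simp only [adj, Bool.or_eq_true, beq_iff_eq] at huv
        rcases huv with (h | h) | h
        · exact orb_trans hue (swap12 p) (by simp) h
        · exact orb_trans hue (swap23 p) (by simp) h
        · exact orb_trans hue (vieta p) (by simp) h
    · exact ih h.2 v hv

lemma empty_of_list {p : ℕ} [DecidableEq (ZMod p)] {k : ZMod p} (s l : List (T p))
    (hs : ∀ v ∈ s, Seed p v) (hl : good p s l = true)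
    (hall : ∀ v : T p, v.1 ^ 2 + v.2.1 ^ 2 + v.2.2 ^ 2 - v.1 * v.2.1 * v.2.2 - 2 = k → v ∈ l) :
    M p k \ Exc p k = ∅ := by
  rw [Set.diff_eq_empty]
  intro v hv
  exact ⟨hv, good_mem hs l hl v (hall v hv)⟩

lemma empty_3_0 : M 3 0 \ Exc 3 0 = ∅ := by
  refine empty_of_list [(1, 1, 0)]
    ([(2, 2, 0), (2, 2, 1), (2, 0, 2), (2, 1, 2), (0, 2, 2), (2, 0, 1), (1, 2, 2), (2, 1, 0), (0,
    2, 1), (1, 2, 0), (0, 1, 2), (1, 0, 2), (0, 1, 1), (1, 1, 1), (1, 0, 1), (1, 1, 0)]) ?_ ?_ ?_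
  · intro v hv
    simp only [List.mem_cons, List.not_mem_nil, or_false] at hv
    subst hv
    exact Seed.one
  · decide +kernel
  · decide +kernel

lemma empty_5_0 : M 5 0 \ Exc 5 0 = ∅ := by
  refine empty_of_list [(1, 1, 0)]
    ([(4, 4, 0), (4, 4, 1), (4, 0, 4), (4, 1, 4), (0, 4, 4), (4, 0, 1), (1, 4, 4), (4, 1, 0), (0,
    4, 1), (1, 4, 0), (0, 1, 4), (1, 0, 4), (0, 1, 1), (1, 1, 1), (1, 0, 1), (1, 1, 0)]) ?_ ?_ ?_
  · intro v hv
    simp only [List.mem_cons, List.not_mem_nil, or_false] at hv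
    subst hv
    exact Seed.one
  · decide +kernel
  · decide +kernel

lemma empty_5_1 : M 5 1 \ Exc 5 1 = ∅ := by
  refine empty_of_list [(3, 3, 0)]
    ([(4, 1, 2), (4, 2, 2), (4, 2, 1), (1, 4, 2), (2, 4, 2), (1, 1, 3), (2, 4, 1), (1, 2, 4), (2,
    2, 4), (1, 3, 1), (2, 1, 4), (1, 2, 3), (2, 2, 0), (3, 1, 1), (1, 3, 2), (2, 1, 3), (2, 0,
    2), (4, 4, 3), (3, 1, 2), (2, 3, 1), (0, 2, 2), (2, 0, 3), (4, 3, 4), (3, 2, 1), (2, 3, 0),
    (0, 2, 3), (3, 4, 4), (4, 3, 3), (3, 2, 0), (0, 3, 2), (3, 4, 3), (3, 0, 2), (0, 3, 3), (3,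
    3, 4), (3, 0, 3), (3, 3, 0)]) ?_ ?_ ?_
  · intro v hv
    simp only [List.mem_cons, List.not_mem_nil, or_false] at hv
    subst hv
    exact Seed.golden _ _ (by decide) (by decide)
  · decide +kernel
  · decide +kernel

lemma empty_5_4 : M 5 4 \ Exc 5 4 = ∅ := by
  refine empty_of_list [(1, 0, 0)]
    ([(4, 0, 0), (0, 4, 0), (0, 0, 4), (0, 0, 1), (0, 1, 0), (1, 0, 0)]) ?_ ?_ ?_
  · intro v hv
    simp only [List.mem_cons, List.not_mem_nil, or_false] at hv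
    subst hv
    exact Seed.axis _
  · decide +kernel
  · decide +kernel

lemma empty_7_0 : M 7 0 \ Exc 7 0 = ∅ := by
  refine empty_of_list [(3, 0, 0), (1, 1, 0)]
    ([(6, 6, 0), (6, 6, 1), (6, 0, 6), (6, 1, 6), (0, 6, 6), (6, 0, 1), (1, 6, 6), (6, 1, 0), (0,
    6, 1), (1, 6, 0), (0, 1, 6), (1, 0, 6), (0, 1, 1), (1, 1, 1), (1, 0, 1), (1, 1, 0), (4, 0,
    0), (0, 4, 0), (0, 0, 4), (0, 0, 3), (0, 3, 0), (3, 0, 0)]) ?_ ?_ ?_
  · intro v hv
    simp only [List.mem_cons, List.not_mem_nil, or_false] at hv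
    rcases hv with rfl | rfl
    · exact Seed.axis _
    · exact Seed.one
  · decide +kernel
  · decide +kernel

lemma empty_7_1 : M 7 1 \ Exc 7 1 = ∅ := by
  refine empty_of_list [(3, 1, 0)]
    ([(4, 6, 0), (4, 6, 3), (6, 4, 0), (4, 4, 1), (4, 0, 6), (4, 3, 6), (6, 4, 3), (6, 0, 4), (4,
    1, 4), (0, 4, 6), (4, 0, 1), (3, 4, 6), (6, 3, 4), (0, 6, 4), (6, 0, 3), (1, 4, 4), (4, 1,
    0), (0, 4, 1), (3, 6, 4), (6, 3, 0), (0, 6, 3), (1, 4, 0), (0, 1, 4), (3, 6, 0), (0, 3, 6),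
    (1, 0, 4), (0, 1, 3), (3, 3, 1), (3, 0, 6), (0, 3, 1), (1, 3, 3), (1, 0, 3), (3, 1, 3), (3,
    0, 1), (1, 3, 0), (3, 1, 0)]) ?_ ?_ ?_
  · intro v hv
    simp only [List.mem_cons, List.not_mem_nil, or_false] at hv
    subst hv
    exact Seed.sqrt2 _ (by decide)
  · decide +kernel
  · decide +kernel

lemma empty_11_1 : M 11 1 \ Exc 11 1 = ∅ := by
  refine empty_of_list [(5, 0, 0), (8, 4, 0)]
    ([(10, 1, 3), (10, 3, 7), (10, 1, 7), (10, 7, 3), (10, 3, 1), (1, 10, 3), (3, 10, 7), (10, 7,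
    1), (1, 10, 7), (7, 10, 3), (1, 1, 4), (3, 10, 1), (1, 3, 10), (3, 7, 10), (1, 1, 8), (7,
    10, 1), (1, 7, 10), (7, 3, 10), (1, 4, 1), (3, 1, 10), (1, 3, 4), (3, 7, 0), (1, 8, 1), (7,
    1, 10), (1, 7, 8), (7, 3, 0), (4, 1, 1), (1, 4, 3), (3, 1, 4), (3, 0, 7), (8, 1, 1), (1, 8,
    7), (7, 1, 8), (7, 0, 3), (10, 10, 4), (4, 1, 3), (3, 4, 1), (0, 3, 7), (3, 0, 4), (10, 10,
    8), (8, 1, 7), (7, 8, 1), (0, 7, 3), (7, 0, 8), (10, 4, 10), (4, 3, 1), (3, 4, 0), (0, 3,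
    4), (10, 8, 10), (8, 7, 1), (7, 8, 0), (0, 7, 8), (4, 10, 10), (10, 4, 8), (4, 3, 0), (0, 4,
    3), (8, 10, 10), (10, 8, 4), (8, 7, 0), (0, 8, 7), (4, 10, 8), (4, 0, 3), (0, 4, 8), (8, 10,
    4), (8, 0, 7), (0, 8, 4), (4, 8, 10), (4, 0, 8), (8, 4, 10), (8, 0, 4), (4, 8, 0), (8, 4,
    0), (6, 0, 0), (0, 6, 0), (0, 0, 6), (0, 0, 5), (0, 5, 0), (5, 0, 0)]) ?_ ?_ ?_
  · intro v hv
    simp only [List.mem_cons, List.not_mem_nil, or_false] at hv
    rcases hv with rfl | rfl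
    · exact Seed.axis _
    · exact Seed.golden _ _ (by decide) (by decide)
  · decide +kernel
  · decide +kernel

/-- For each of the seven pairs `(p, k)` listed, `p` is an odd prime, `k ≠ 2, -2`, and the set
`M_k(F_p) \ E_k` is empty, so that it is not a single orbit; hence Q1 fails. -/
theorem result :
    (M 3 0 \ Exc 3 0 = ∅ ∧ M 5 0 \ Exc 5 0 = ∅ ∧ M 5 1 \ Exc 5 1 = ∅ ∧ M 5 4 \ Exc 5 4 = ∅ ∧
      M 7 0 \ Exc 7 0 = ∅ ∧ M 7 1 \ Exc 7 1 = ∅ ∧ M 11 1 \ Exc 11 1 = ∅) ∧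
    ¬ ∀ p : ℕ, p.Prime → p ≠ 2 → ∀ k : ZMod p, k ≠ 2 → k ≠ -2 → SingleOrbit p k := by
  refine ⟨⟨empty_3_0, empty_5_0, empty_5_1, empty_5_4, empty_7_0, empty_7_1, empty_11_1⟩, ?_⟩
  intro h
  obtain ⟨v, hv⟩ := h 11 (by norm_num) (by norm_num) 1 (by decide) (by decide)
  rw [empty_11_1] at hv
  have : v ∈ (∅ : Set (T 11)) := by
    rw [hv]; exact MulAction.mem_orbit_self v
  exact this

end Pool.Agent.Results.MP_c86b5e_nt.SmallPrimes
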